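import Pool.Agent.W560.EW.Final

set_option autoImplicit false

open Polynomial

namespace Pool.Agent.Results.MP_3f3e0f_an.PowerFunctions

/-- A real polynomial is real-rooted if it is zero or all of its complex zeros are real. -/
def RealRooted (p : ℝ[X]) : Prop :=
  p = 0 ∨ ∀ z : ℂ, Polynomial.aeval z p = 0 → z.im = 0

/-- The entrywise image `F[p] = sum_{k <= deg p} F(a_k) x^k` of `p = sum a_k x^k`. -/
noncomputable def entrywise (F : ℝ → ℝ) (p : ℝ[X]) : ℝ[X] :=
  ∑ k ∈ Finset.range (p.natDegree + 1), Polynomial.monomial k (F (p.coeff k))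

/-- `F` preserves real-rootedness on the polynomials `p = sum_{k <= n} a_k x^k` with all
coefficients `a_0, ..., a_n` strictly positive. -/
def Preserves (F : ℝ → ℝ) : Prop :=
  ∀ p : ℝ[X], (∀ k ≤ p.natDegree, 0 < p.coeff k) → RealRooted p → RealRooted (entrywise F p)

theorem result (F : ℝ → ℝ) (hF0 : F 0 = 0) (hF : ∀ t, 0 ≤ t → 0 ≤ F t) (h : Preserves F) :
    (∀ t : ℝ, 0 ≤ t → F t = 0) ∨
      ∃ c α : ℝ, 0 < c ∧ (α = 1 ∨ 9 / 8 < α) ∧ ∀ t : ℝ, 0 ≤ t → F t = c * t ^ α := by
  have hP : Pool.Agent.W560.EW.Pres (fun t => if 0 ≤ t then F t else 0) := by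
    intro p hp hR
    have he : Pool.Agent.W560.EW.app (fun t => if 0 ≤ t then F t else 0) p = entrywise F p := by
      unfold Pool.Agent.W560.EW.app entrywise
      refine Finset.sum_congr rfl (fun k hk => ?_)
      have hk' : k ≤ p.natDegree := Nat.lt_succ_iff.mp (Finset.mem_range.mp hk)
      simp only [(hp k hk').le, if_true]
    rw [he]
    exact h p hp (Or.inr hR)
  rcases Pool.Agent.W560.EW.power (fun t => if 0 ≤ t then F t else 0)
    (fun t => by
      by_cases ht : 0 ≤ t
      · simp only [ht, if_true]; exact hF t ht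
      · simp only [ht, if_false]; exact le_rfl) hP with h2 | ⟨c, α, hc, hα, h2⟩
  · left
    intro t ht
    rcases ht.eq_or_lt with h3 | h3
    · rw [← h3]; exact hF0
    · have h4 := h2 t h3
      simpa [h3.le] using h4
  · refine Or.inr ⟨c, α, hc, hα, ?_⟩
    intro t ht
    rcases ht.eq_or_lt with h3 | h3
    · rw [← h3, hF0, Real.zero_rpow (by rcases hα with h | h <;> linarith), mul_zero]
    · have h4 := h2 t h3
      simpa [h3.le] using h4

end Pool.Agent.Results.MP_3f3e0f_an.PowerFunctions
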